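import Pool.Agent.H85.AU.Targets

/-!
# MP_c9ef16_gt, topological half, part 2: restriction for `A_P` (module CUT)
-/

open CategoryTheory CategoryTheory.Limits TopologicalSpace Topology Set
open Pool.Agent.H85.AU

universe w

namespace Pool.Agent.H12.AU

section

variable {X : Type} [TopologicalSpace X] {C : Type 1} [Category.{0} C] [Abelian C]

lemma cut_isIso_a (c : CutSys X C) (P V : Opens X) (A : C) :
    IsIso (c.mp (inf_le_left : V ⊓ P ≤ V) (c.ob P A)) := c.isIso_mp_inf V P A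

lemma cut_isIso_b (c : CutSys X C) (P V : Opens X) (A : C) :
    IsIso (c.fm (V ⊓ P) (c.ep P A)) := c.isIso_fm_ep inf_le_right A

/-- `A_{V ∩ P} → (A_P)_V` -/
noncomputable def cutG (c : CutSys X C) (P V : Opens X) (A : C) :
    c.ob (V ⊓ P) A ⟶ c.ob V (c.ob P A) :=
  have := cut_isIso_b c P V A
  inv (c.fm (V ⊓ P) (c.ep P A)) ≫ c.mp (inf_le_left : V ⊓ P ≤ V) (c.ob P A)

lemma cutG_isIso (c : CutSys X C) (P V : Opens X) (A : C) : IsIso (cutG c P V A) := by
  have := cut_isIso_b c P V A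
  have := cut_isIso_a c P V A
  unfold cutG
  infer_instance

lemma cutG_mp (c : CutSys X C) (P : Opens X) {U V : Opens X} (h : U ≤ V)
    (h' : U ⊓ P ≤ V ⊓ P) (A : C) :
    cutG c P U A ≫ c.mp h (c.ob P A) = c.mp h' A ≫ cutG c P V A := by
  have i1 := cut_isIso_b c P U A
  have i2 := cut_isIso_b c P V A
  unfold cutG
  rw [Category.assoc, CutSys.mp_mp, IsIso.inv_comp_eq, CutSys.fm_mp_assoc,
    IsIso.hom_inv_id_assoc, CutSys.mp_mp]

end

theorem pf_CUT : T_CUT.{w} := by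
  intro X _ C _ _ _ c A B n P U V h h' hf
  have iU := cutG_isIso c P U A
  refine (hf.image (fun β => (Abelian.Ext.mk₀ (inv (cutG c P U A))).comp β
    (zero_add n))).subset ?_
  rintro _ ⟨α, rfl⟩
  refine ⟨CutSys.rs.{w} c A B n h' ((Abelian.Ext.mk₀ (cutG c P V A)).comp α (zero_add n)),
    ⟨_, rfl⟩, ?_⟩
  show (Abelian.Ext.mk₀ (inv (cutG c P U A))).comp (CutSys.rs.{w} c A B n h'
    ((Abelian.Ext.mk₀ (cutG c P V A)).comp α (zero_add n))) (zero_add n) = _
  rw [CutSys.rs_apply, CutSys.rs_apply, Abelian.Ext.mk₀_comp_mk₀_assoc,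
    Abelian.Ext.mk₀_comp_mk₀_assoc, Category.assoc, ← cutG_mp c P h h' A,
    IsIso.inv_hom_id_assoc]

end Pool.Agent.H12.AU
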