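import Pool.Agent.H85.AU.Targets

/-!
# MP_c9ef16_gt, topological half, part 2: goodness of a quotient (module MDB)
-/

open CategoryTheory CategoryTheory.Limits TopologicalSpace Topology Set
open Pool.Agent.H85.AU

universe w

namespace Pool.Agent.H12.AU

section

variable {X : Type} [TopologicalSpace X] {C : Type 1} [Category.{0} C] [Abelian C]

lemma mdb_zero (c : CutSys X C) (S : ShortComplex C) (U : Opens X) :
    c.fm U S.f ≫ c.fm U S.g = 0 := by
  have := c.add U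
  rw [← CutSys.fm_comp, S.zero]
  exact (c.cut.obj U).map_zero _ _

/-- the short complex `(X₁)_U → (X₂)_U → (X₃)_U` -/
noncomputable def mdbS (c : CutSys X C) (S : ShortComplex C) (U : Opens X) : ShortComplex C :=
  ShortComplex.mk (c.fm U S.f) (c.fm U S.g) (mdb_zero c S U)

lemma mdbS_exact (c : CutSys X C) (S : ShortComplex C) (hS : S.ShortExact) (U : Opens X) :
    (mdbS c S U).ShortExact := by
  have := c.lim U
  have := c.colim U
  have := c.add U
  exact hS.map_of_exact (c.cut.obj U)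

/-- the restriction of the short complexes -/
noncomputable def mdbM (c : CutSys X C) (S : ShortComplex C) {U V : Opens X} (h : U ≤ V) :
    mdbS c S U ⟶ mdbS c S V where
  τ₁ := c.mp h S.X₁
  τ₂ := c.mp h S.X₂
  τ₃ := c.mp h S.X₃
  comm₁₂ := (c.fm_mp h S.f).symm
  comm₂₃ := (c.fm_mp h S.g).symm

end

lemma mdb_nat {C : Type 1} [Category.{0} C] [Abelian C] [HasExt.{w} C] {S₁ S₂ : ShortComplex C}
    (h₁ : S₁.ShortExact) (h₂ : S₂.ShortExact) (f : S₁ ⟶ S₂) {B : C} {m : ℕ}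
    (b : Abelian.Ext.{w} S₂.X₁ B m) :
    h₁.extClass.{w}.comp ((Abelian.Ext.mk₀ f.τ₁).comp b (zero_add m)) (Nat.add_comm 1 m) =
    (Abelian.Ext.mk₀ f.τ₃).comp (h₂.extClass.{w}.comp b (Nat.add_comm 1 m))
      (zero_add (m + 1)) := by
  have hn := h₁.extClass_naturality.{w} h₂ f
  rw [← Abelian.Ext.comp_assoc h₁.extClass.{w} (Abelian.Ext.mk₀ f.τ₁) b (add_zero 1)
      (zero_add m) (Nat.add_comm 1 m), hn,
    Abelian.Ext.comp_assoc (Abelian.Ext.mk₀ f.τ₃) h₂.extClass.{w} b (zero_add 1)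
      (Nat.add_comm 1 m) (Nat.add_comm 1 m)]

theorem pf_MDB : T_MDB.{w} := by
  intro X _ C _ _ _ c S hS B x h1 h2 n V hV
  obtain ⟨U1, hx1, hU1, hf1⟩ := h2 n V hV
  have key : ∀ α : Abelian.Ext.{w} (c.ob V S.X₃) B n,
      CutSys.rs.{w} c S.X₂ B n hU1 ((Abelian.Ext.mk₀ (c.fm V S.g)).comp α (zero_add n)) =
      (Abelian.Ext.mk₀ (c.fm U1 S.g)).comp (CutSys.rs.{w} c S.X₃ B n hU1 α) (zero_add n) :=
    fun α => CutSys.rs_fm c B n hU1 S.g α
  cases n with
  | zero =>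
    refine ⟨U1, hx1, hU1, ?_⟩
    have hepi : Epi (c.fm U1 S.g) := (mdbS_exact c S hS U1).epi_g
    refine Set.Finite.of_finite_image (f := fun β : Abelian.Ext.{w} (c.ob U1 S.X₃) B 0 =>
      (Abelian.Ext.mk₀ (c.fm U1 S.g)).comp β (zero_add 0)) (hf1.subset ?_) ?_
    · rintro _ ⟨_, ⟨α, rfl⟩, rfl⟩
      exact ⟨_, key α⟩
    · exact (Abelian.Ext.precomp_mk₀_injective_of_epi B (c.fm U1 S.g)).injOn
  | succ m =>
    obtain ⟨U2, hx2, hU2, hf2⟩ := h1 m U1 hx1
    refine ⟨U2, hx2, hU2.trans hU1, ?_⟩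
    refine finite_range_of_ker
      ((CutSys.rs.{w} c S.X₂ B (m + 1) hU1).comp
        ((Abelian.Ext.mk₀ (c.fm V S.g)).precomp B (zero_add (m + 1))))
      (CutSys.rs.{w} c S.X₃ B (m + 1) (hU2.trans hU1)) ?_
      ((fun β => (mdbS_exact c S hS U2).extClass.{w}.comp β (Nat.add_comm 1 m)) ''
        range (CutSys.rs.{w} c S.X₁ B m hU2)) (hf2.image _) ?_
    · refine hf1.subset ?_
      rintro _ ⟨α, rfl⟩
      exact ⟨_, rfl⟩
    · intro α hα
      have h0 : (Abelian.Ext.mk₀ (c.fm U1 S.g)).comp (CutSys.rs.{w} c S.X₃ B (m + 1) hU1 α)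
          (zero_add (m + 1)) = 0 := (key α).symm.trans hα
      obtain ⟨b, hb⟩ := Abelian.Ext.contravariant_sequence_exact₃ (mdbS_exact c S hS U1) B
        (CutSys.rs.{w} c S.X₃ B (m + 1) hU1 α) h0 (Nat.add_comm 1 m)
      refine ⟨CutSys.rs.{w} c S.X₁ B m hU2 b, ⟨b, rfl⟩, ?_⟩
      rw [← CutSys.rs_rs c S.X₃ B (m + 1) hU2 hU1 α, ← hb]
      exact mdb_nat (mdbS_exact c S hS U2) (mdbS_exact c S hS U1) (mdbM c S hU2) b

end Pool.Agent.H12.AU
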